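import Mathlib

set_option autoImplicit false

namespace Pool.Agent.Y372

open Real Set

/-- The combinatorial properties of the arcs of directions used by the argument. -/
structure ArcSystem (A : Fin 5 → Set ℝ) : Prop where
  closed : ∀ i, IsClosed (A i)
  cover : ∀ t, ∃ i, t ∈ A i
  period : ∀ i t, t ∈ A i → t + 2 * π ∈ A i
  anti : ∀ i k t s, t ∈ A i → t + π ∈ A k → s ∈ A i → s ∈ A k → False
  cap : ∀ i s t r, s ∈ A i → r ∈ A i → s ≤ t → t ≤ r → r < s + π → t ∈ A i

variable {A : Fin 5 → Set ℝ}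

/-- The last element of `A i` in the window of length `π` after `t`. -/
lemma ArcSystem.right_end (h : ArcSystem A) {i : Fin 5} {t : ℝ} (ht : t ∈ A i) :
    ∃ m, m ∈ A i ∧ t ≤ m ∧ m < t + π ∧ (∀ s, m < s → s ≤ m + π → s ∉ A i) ∧
      ∀ s ∈ A i, t ≤ s → s ≤ t + π → s ≤ m := by
  have hne : (A i ∩ Icc t (t + π)).Nonempty := ⟨t, ht, le_refl _, by linarith [pi_pos]⟩
  have hcomp : IsCompact (A i ∩ Icc t (t + π)) := isCompact_Icc.inter_left (h.closed i)
  obtain ⟨m, ⟨hmA, hmt, hmt'⟩, hmax⟩ := hcomp.exists_isMaxOn hne continuousOn_id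
  have hmax' : ∀ s ∈ A i, t ≤ s → s ≤ t + π → s ≤ m := fun s hs h1 h2 => hmax ⟨hs, h1, h2⟩
  have hlt : m < t + π := by
    rcases lt_or_eq_of_le hmt' with h1 | h1
    · exact h1
    · exfalso
      rw [h1] at hmA
      exact h.anti i i t t ht hmA ht ht
  refine ⟨m, hmA, hmt, hlt, ?_, hmax'⟩
  intro s hs1 hs2 hsA
  rcases le_or_gt s (t + π) with h1 | h1
  · have := hmax' s hsA (by linarith) h1
    linarith
  · have h3 : s - π ∈ A i := h.cap i t (s - π) m ht hmA (by linarith) (by linarith) hlt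
    exact h.anti i i (s - π) t h3 (by simpa using hsA) ht ht

/-- The next point of the chain. -/
lemma ArcSystem.next (h : ArcSystem A) (t : ℝ) :
    ∃ m i, t ∈ A i ∧ m ∈ A i ∧ t < m ∧ m < t + π ∧ (∀ s, m < s → s ≤ m + π → s ∉ A i) := by
  -- a point slightly larger than `t` sharing a label with `t`
  obtain ⟨s, i, hts, hsp, hti, hsi⟩ : ∃ s i, t < s ∧ s ≤ t + π ∧ t ∈ A i ∧ s ∈ A i := by
    have hcl : IsClosed (⋃ i ∈ {i : Fin 5 | t ∉ A i}, A i) := by
      apply Set.Finite.isClosed_biUnion (Set.toFinite _)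
      intro i _
      exact h.closed i
    have hopen : IsOpen (⋃ i ∈ {i : Fin 5 | t ∉ A i}, A i)ᶜ := hcl.isOpen_compl
    have htm : t ∈ (⋃ i ∈ {i : Fin 5 | t ∉ A i}, A i)ᶜ := by
      intro hc
      simp only [mem_iUnion, mem_ofPred_eq, exists_prop] at hc
      obtain ⟨i, h1, h2⟩ := hc
      exact h1 h2
    obtain ⟨ε, hε, hball⟩ := Metric.isOpen_iff.mp hopen t htm
    set s := t + min (ε / 2) π with hs
    have hmin : 0 < min (ε / 2) π := lt_min (by linarith) pi_pos
    have hsb : s ∈ Metric.ball t ε := by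
      rw [Metric.mem_ball, Real.dist_eq, hs, add_sub_cancel_left, abs_of_pos hmin]
      have := min_le_left (ε / 2) π
      linarith
    have hsc := hball hsb
    obtain ⟨i, hi⟩ := h.cover s
    refine ⟨s, i, by linarith, ?_, ?_, hi⟩
    · have := min_le_right (ε / 2) π
      linarith
    · by_contra hc
      apply hsc
      simp only [mem_iUnion, mem_ofPred_eq, exists_prop]
      exact ⟨i, hc, hi⟩
  obtain ⟨m, hmA, hmt, hlt, hfree, hmax⟩ := h.right_end hti
  exact ⟨m, i, hti, hmA, lt_of_lt_of_le hts (hmax s hsi hts.le hsp), hlt, hfree⟩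

/-- A short chain of five labelled directions closing up. -/
theorem ArcSystem.chain (h : ArcSystem A) :
    ∃ (θ : ℕ → ℝ) (L : ℕ → Fin 5), θ 5 = θ 0 + 2 * π ∧
      (∀ j, θ j ≤ θ (j + 1)) ∧ (∀ j, θ (j + 1) < θ j + π) ∧
      (∀ j, θ j ∈ A (L j)) ∧ (∀ j, θ (j + 1) ∈ A (L j)) := by
  choose nxt lab h1 h2 h3 h4 h5 using h.next
  -- the chain
  let t : ℕ → ℝ := fun n => nxt^[n + 1] 0
  let R : ℕ → Fin 5 := fun n => lab (nxt^[n] 0)
  have tsucc : ∀ n, t (n + 1) = nxt (t n) := fun n => Function.iterate_succ_apply' nxt (n + 1) 0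
  have Rsucc : ∀ n, R (n + 1) = lab (t n) := fun n => rfl
  have tlt : ∀ n, t n < t (n + 1) := fun n => by rw [tsucc]; exact h3 _
  have tmono : StrictMono t := strictMono_nat_of_lt_succ tlt
  have tend : ∀ n, ∀ s, t n < s → s ≤ t n + π → s ∉ A (R n) := by
    intro n s hs1 hs2
    have e : t n = nxt (nxt^[n] 0) := Function.iterate_succ_apply' nxt n 0
    rw [e] at hs1 hs2
    exact h5 _ s hs1 hs2
  have tmemR : ∀ n, t n ∈ A (R n) := by
    intro n
    have e : t n = nxt (nxt^[n] 0) := Function.iterate_succ_apply' nxt n 0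
    rw [e]
    exact h2 _
  have tmem : ∀ n, t n ∈ A (R (n + 1)) := fun n => by rw [Rsucc]; exact h1 _
  have tpi : ∀ n, t (n + 1) < t n + π := fun n => by rw [tsucc]; exact h4 _
  have hbig : t 0 + 2 * π ≤ t 5 := by
    by_contra hc
    push Not at hc
    obtain ⟨a, b, hab, hRab⟩ : ∃ a b : Fin 6, a ≠ b ∧ R a = R b := by
      obtain ⟨a, b, hab, hf⟩ := Fintype.exists_ne_map_eq_of_card_lt (fun a : Fin 6 => R a)
        (by simp)
      exact ⟨a, b, hab, hf⟩
    have main : ∀ a b : ℕ, a < b → b ≤ 5 → R a = R b → False := by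
      intro a b hab hb hR
      have ta : t 0 ≤ t a := tmono.monotone (Nat.zero_le _)
      have tb : t b ≤ t 5 := tmono.monotone hb
      have tab : t a < t b := tmono hab
      have hbA : t b ∈ A (R a) := by rw [hR]; exact tmemR b
      have hb1 : t a + π < t b := by
        by_contra hcc
        push Not at hcc
        exact tend a (t b) tab hcc hbA
      have ha2 : t a + 2 * π ∈ A (R b) := by
        rw [← hR]; exact h.period _ _ (tmemR a)
      exact tend b (t a + 2 * π) (by linarith) (by linarith) ha2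
    rcases lt_or_gt_of_ne (fun hh => hab (Fin.ext hh) : (a : ℕ) ≠ b) with hlt | hlt
    · exact main a b hlt (by omega) hRab
    · exact main b a hlt (by omega) hRab.symm
  obtain ⟨i0, hi0⟩ := h.cover (t 0 + 2 * π)
  let T : ℝ := t 0 + 2 * π
  refine ⟨fun n => min (t n) T, fun n => if t n ≤ T then R (n + 1) else i0, ?_, ?_, ?_, ?_, ?_⟩
  · change min (t 5) T = min (t 0) T + 2 * π
    rw [min_eq_right hbig, min_eq_left (by change t 0 ≤ t 0 + 2 * π; linarith [pi_pos])]
  · intro j
    exact min_le_min_right _ (tlt j).le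
  · intro j
    change min (t (j + 1)) T < min (t j) T + π
    rcases le_total (t j) T with hj | hj
    · rw [min_eq_left hj]
      exact lt_of_le_of_lt (min_le_left _ _) (tpi j)
    · rw [min_eq_right hj]
      exact lt_of_le_of_lt (min_le_right _ _) (by linarith [pi_pos])
  · intro j
    change min (t j) T ∈ A (if t j ≤ T then R (j + 1) else i0)
    split_ifs with hj
    · rw [min_eq_left hj]; exact tmem j
    · push Not at hj
      rw [min_eq_right hj.le]; exact hi0
  · intro j
    change min (t (j + 1)) T ∈ A (if t j ≤ T then R (j + 1) else i0)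
    split_ifs with hj
    · rcases le_total (t (j + 1)) T with hj1 | hj1
      · rw [min_eq_left hj1]; exact tmemR (j + 1)
      · rw [min_eq_right hj1]
        exact h.cap _ (t j) T (t (j + 1)) (tmem j) (tmemR (j + 1)) hj hj1 (tpi j)
    · push Not at hj
      rw [min_eq_right (hj.le.trans (tlt j).le)]; exact hi0

/-- Two consecutive steps of a chain together are shorter than `π`. -/
lemma ArcSystem.double (h : ArcSystem A) {i k : Fin 5} {r s t : ℝ} (hr : r ∈ A i) (hs : s ∈ A i)
    (hs' : s ∈ A k) (ht : t ∈ A k) (hrs : s < r + π) (hst : t < s + π) :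
    t < r + π := by
  by_contra hc
  push Not at hc
  have : r + π ∈ A k := h.cap k s (r + π) t hs' ht hrs.le hc hst
  exact h.anti i k r s hr this hs hs'

end Pool.Agent.Y372
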