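import Mathlib

set_option autoImplicit false

namespace Pool.Agent.Y372

/-- The bracket step: four consecutive support lines, first inequality. -/
lemma step_one (u0 v0 u1 v1 u2 v2 u3 v3 a0 b0 a1 b1 a2 b2 a3 b3 m n y0 x1 y1 x2 y2 x3 : ℝ)
    (hP2 : 0 < u2 * v3 - v2 * u3)
    (hR0 : 0 < u0 * v2 - v0 * u2)
    (hQ : 0 < u3 * v0 - v3 * u0)
    (e01a : a1 - a0 = y0 * u0 + x1 * u1) (e01b : b1 - b0 = y0 * v0 + x1 * v1)
    (e12a : a2 - a1 = y1 * u1 + x2 * u2) (e12b : b2 - b1 = y1 * v1 + x2 * v2)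
    (e23a : a3 - a2 = y2 * u2 + x3 * u3) (e23b : b3 - b2 = y2 * v2 + x3 * v3)
    (hm2 : 0 ≤ u2 * (n - b2) - v2 * (m - a2))
    (hm3 : 0 ≤ u3 * (n - b3) - v3 * (m - a3))
    (hI : 2 * (u0 * (b2 - b1) - v0 * (a2 - a1)) < u0 * (n - b0) - v0 * (m - a0)) :
    (y1 - x1) * (u0 * v1 - v0 * u1) < (y2 - x2) * (u0 * v2 - v0 * u2) := by
  have ha1 : a1 = a0 + (y0 * u0 + x1 * u1) := by linarith
  have hb1 : b1 = b0 + (y0 * v0 + x1 * v1) := by linarith
  have ha2 : a2 = a1 + (y1 * u1 + x2 * u2) := by linarith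
  have hb2 : b2 = b1 + (y1 * v1 + x2 * v2) := by linarith
  have ha3 : a3 = a2 + (y2 * u2 + x3 * u3) := by linarith
  have hb3 : b3 = b2 + (y2 * v2 + x3 * v3) := by linarith
  -- the point `t = p2 + y2 s2`
  have key : (u2 * v3 - v2 * u3) *
      (u0 * (n - (b2 + y2 * v2)) - v0 * (m - (a2 + y2 * u2))) =
      -(u3 * v0 - v3 * u0) * (u2 * (n - b2) - v2 * (m - a2))
      - (u0 * v2 - v0 * u2) * (u3 * (n - b3) - v3 * (m - a3)) := by
    rw [ha3, hb3]; ring
  have hle : (u2 * v3 - v2 * u3) *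
      (u0 * (n - (b2 + y2 * v2)) - v0 * (m - (a2 + y2 * u2))) ≤ 0 := by
    rw [key]
    have h1 := mul_nonneg hQ.le hm2
    have h2 := mul_nonneg hR0.le hm3
    linarith
  have hle2 : u0 * (n - (b2 + y2 * v2)) - v0 * (m - (a2 + y2 * u2)) ≤ 0 := by
    by_contra hc
    push Not at hc
    have := mul_pos hP2 hc
    linarith
  have eq1 : u0 * (n - b0) - v0 * (m - a0) =
      (u0 * (n - (b2 + y2 * v2)) - v0 * (m - (a2 + y2 * u2))) +
      (x1 + y1) * (u0 * v1 - v0 * u1) + (x2 + y2) * (u0 * v2 - v0 * u2) := by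
    rw [ha2, hb2, ha1, hb1]; ring
  have eq2 : u0 * (b2 - b1) - v0 * (a2 - a1) =
      y1 * (u0 * v1 - v0 * u1) + x2 * (u0 * v2 - v0 * u2) := by
    rw [e12a, e12b]; ring
  rw [eq1, eq2] at hI
  nlinarith

/-- The bracket step: four consecutive support lines, second inequality. -/
lemma step_two (u0 v0 u1 v1 u2 v2 u3 v3 a0 b0 a1 b1 a2 b2 a3 b3 m n y0 x1 y1 x2 y2 x3 : ℝ)
    (hP0 : 0 < u0 * v1 - v0 * u1)
    (hR1 : 0 < u1 * v3 - v1 * u3)
    (hQ : 0 < u3 * v0 - v3 * u0)
    (e01a : a1 - a0 = y0 * u0 + x1 * u1) (e01b : b1 - b0 = y0 * v0 + x1 * v1)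
    (e12a : a2 - a1 = y1 * u1 + x2 * u2) (e12b : b2 - b1 = y1 * v1 + x2 * v2)
    (e23a : a3 - a2 = y2 * u2 + x3 * u3) (e23b : b3 - b2 = y2 * v2 + x3 * v3)
    (hm0 : 0 ≤ u0 * (n - b0) - v0 * (m - a0))
    (hm1 : 0 ≤ u1 * (n - b1) - v1 * (m - a1))
    (hII : 2 * (u3 * (b1 - b2) - v3 * (a1 - a2)) < u3 * (n - b3) - v3 * (m - a3)) :
    (y1 - x1) * (u1 * v3 - v1 * u3) < (y2 - x2) * (u2 * v3 - v2 * u3) := by
  have ha1 : a0 = a1 - (y0 * u0 + x1 * u1) := by linarith
  have hb1 : b0 = b1 - (y0 * v0 + x1 * v1) := by linarith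
  have ha2 : a1 = a2 - (y1 * u1 + x2 * u2) := by linarith
  have hb2 : b1 = b2 - (y1 * v1 + x2 * v2) := by linarith
  have ha3 : a2 = a3 - (y2 * u2 + x3 * u3) := by linarith
  have hb3 : b2 = b3 - (y2 * v2 + x3 * v3) := by linarith
  -- the point `t = p1 - x1 s1`
  have key : (u0 * v1 - v0 * u1) *
      (u3 * (n - (b1 - x1 * v1)) - v3 * (m - (a1 - x1 * u1))) =
      -(u1 * v3 - v1 * u3) * (u0 * (n - b0) - v0 * (m - a0))
      - (u3 * v0 - v3 * u0) * (u1 * (n - b1) - v1 * (m - a1)) := by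
    rw [ha1, hb1]; ring
  have hle : (u0 * v1 - v0 * u1) *
      (u3 * (n - (b1 - x1 * v1)) - v3 * (m - (a1 - x1 * u1))) ≤ 0 := by
    rw [key]
    have h1 := mul_nonneg hR1.le hm0
    have h2 := mul_nonneg hQ.le hm1
    linarith
  have hle2 : u3 * (n - (b1 - x1 * v1)) - v3 * (m - (a1 - x1 * u1)) ≤ 0 := by
    by_contra hc
    push Not at hc
    have := mul_pos hP0 hc
    linarith
  have eq1 : u3 * (n - b3) - v3 * (m - a3) =
      (u3 * (n - (b1 - x1 * v1)) - v3 * (m - (a1 - x1 * u1))) +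
      (x1 + y1) * (u1 * v3 - v1 * u3) + (x2 + y2) * (u2 * v3 - v2 * u3) := by
    rw [hb2, ha2, ha3, hb3]; ring
  have eq2 : u3 * (b1 - b2) - v3 * (a1 - a2) =
      y1 * (u1 * v3 - v1 * u3) + x2 * (u2 * v3 - v2 * u3) := by
    have q1 : a1 - a2 = -(y1 * u1 + x2 * u2) := by linarith
    have q2 : b1 - b2 = -(y1 * v1 + x2 * v2) := by linarith
    rw [q1, q2]; ring
  rw [eq1, eq2] at hII
  nlinarith

/-- The cyclic product contradiction. -/
lemma cyclic_contra (e P R : Fin 5 → ℝ) (hP : ∀ j, 0 < P j) (hR : ∀ j, 0 < R j)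
    (h1 : ∀ j, e j * P (j + 4) < e (j + 1) * R (j + 4))
    (h2 : ∀ j, e j * R j < e (j + 1) * P (j + 1)) : False := by
  have prodP : (∏ j, P (j + 4)) = ∏ j, P j := by
    simp only [Fin.prod_univ_five]
    change P 4 * P 0 * P 1 * P 2 * P 3 = _
    ring
  have prodP1 : (∏ j, P (j + 1)) = ∏ j, P j := by
    simp only [Fin.prod_univ_five]
    change P 1 * P 2 * P 3 * P 4 * P 0 = _
    ring
  have prodR : (∏ j, R (j + 4)) = ∏ j, R j := by
    simp only [Fin.prod_univ_five]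
    change R 4 * R 0 * R 1 * R 2 * R 3 = _
    ring
  by_cases hpos : ∃ j, 0 ≤ e j
  · obtain ⟨j, hj⟩ := hpos
    have up : ∀ j, 0 ≤ e j → 0 < e (j + 1) := by
      intro j hj
      have := h1 j
      have h3 : 0 ≤ e j * P (j + 4) := mul_nonneg hj (hP _).le
      have h4 : 0 < e (j + 1) * R (j + 4) := by linarith
      exact (pos_iff_pos_of_mul_pos h4).mpr (hR _)
    have e1 := up j hj
    have e2 := up _ e1.le
    have e3 := up _ e2.le
    have e4 := up _ e3.le
    have e5 := up _ e4.le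
    have hall : ∀ k, 0 < e k := by
      intro k
      have gen : ∀ k j : Fin 5, k = j + 1 ∨ k = j + 1 + 1 ∨ k = j + 1 + 1 + 1 ∨
          k = j + 1 + 1 + 1 + 1 ∨ k = j + 1 + 1 + 1 + 1 + 1 := by
        decide
      rcases gen k j with h | h | h | h | h <;> rw [h] <;> assumption
    have q1 : (∏ j, e j * P (j + 4)) < ∏ j, e (j + 1) * R (j + 4) := by
      apply Finset.prod_lt_prod
      · intro i _; exact mul_pos (hall i) (hP _)
      · intro i _; exact (h1 i).le
      · exact ⟨0, Finset.mem_univ _, h1 0⟩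
    have q2 : (∏ j, e j * R j) < ∏ j, e (j + 1) * P (j + 1) := by
      apply Finset.prod_lt_prod
      · intro i _; exact mul_pos (hall i) (hR _)
      · intro i _; exact (h2 i).le
      · exact ⟨0, Finset.mem_univ _, h2 0⟩
    have prode : (∏ j, e (j + 1)) = ∏ j, e j := by
      simp only [Fin.prod_univ_five]
      change e 1 * e 2 * e 3 * e 4 * e 0 = _
      ring
    rw [Finset.prod_mul_distrib, Finset.prod_mul_distrib, prodP, prodR, prode] at q1
    rw [Finset.prod_mul_distrib, Finset.prod_mul_distrib, prodP1, prode] at q2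
    linarith
  · push Not at hpos
    have q1 : (∏ j, (-e (j + 1)) * R (j + 4)) < ∏ j, (-e j) * P (j + 4) := by
      apply Finset.prod_lt_prod
      · intro i _; exact mul_pos (by linarith [hpos (i + 1)]) (hR _)
      · intro i _; linarith [h1 i]
      · exact ⟨0, Finset.mem_univ _, by linarith [h1 0]⟩
    have q2 : (∏ j, (-e (j + 1)) * P (j + 1)) < ∏ j, (-e j) * R j := by
      apply Finset.prod_lt_prod
      · intro i _; exact mul_pos (by linarith [hpos (i + 1)]) (hP _)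
      · intro i _; linarith [h2 i]
      · exact ⟨0, Finset.mem_univ _, by linarith [h2 0]⟩
    have prode : (∏ j, -e (j + 1)) = ∏ j, -e j := by
      simp only [Fin.prod_univ_five]
      change -e 1 * -e 2 * -e 3 * -e 4 * -e 0 = _
      ring
    rw [Finset.prod_mul_distrib, Finset.prod_mul_distrib, prodP, prodR, prode] at q1
    rw [Finset.prod_mul_distrib, Finset.prod_mul_distrib, prodP1, prode] at q2
    linarith

/-- Decomposition of a plane vector along two independent directions. -/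
lemma decomp (u0 v0 u1 v1 a b : ℝ) (h : 0 < u0 * v1 - v0 * u1) :
    ∃ y x : ℝ, a = y * u0 + x * u1 ∧ b = y * v0 + x * v1 := by
  have hne : u0 * v1 - v0 * u1 ≠ 0 := h.ne'
  refine ⟨(a * v1 - b * u1) / (u0 * v1 - v0 * u1), (u0 * b - v0 * a) / (u0 * v1 - v0 * u1), ?_, ?_⟩
  · rw [div_mul_eq_mul_div, div_mul_eq_mul_div, ← add_div, eq_div_iff hne]; ring
  · rw [div_mul_eq_mul_div, div_mul_eq_mul_div, ← add_div, eq_div_iff hne]; ring

/-- Five support lines of a plane convex set cannot satisfy all the ten strict inequalities. -/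
theorem pentagon_contra (u v a b m n : Fin 5 → ℝ)
    (hP : ∀ j, 0 < u j * v (j + 1) - v j * u (j + 1))
    (hR : ∀ j, 0 < u j * v (j + 2) - v j * u (j + 2))
    (hm : ∀ j k, 0 ≤ u k * (n j - b k) - v k * (m j - a k))
    (hI : ∀ j, 2 * (u (j + 4) * (b (j + 1) - b j) - v (j + 4) * (a (j + 1) - a j)) <
      u (j + 4) * (n (j + 4) - b (j + 4)) - v (j + 4) * (m (j + 4) - a (j + 4)))
    (hII : ∀ j, 2 * (u (j + 2) * (b j - b (j + 1)) - v (j + 2) * (a j - a (j + 1))) <
      u (j + 2) * (n (j + 2) - b (j + 2)) - v (j + 2) * (m (j + 2) - a (j + 2))) : False := by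
  have hdec : ∀ j, ∃ y x : ℝ, a (j + 1) - a j = y * u j + x * u (j + 1) ∧
      b (j + 1) - b j = y * v j + x * v (j + 1) := fun j => decomp _ _ _ _ _ _ (hP j)
  choose y x hya hyb using hdec
  -- `x j` here is the coefficient of `s (j+1)`; the paper's `x_{j+1}`
  have i41 : ∀ j : Fin 5, j + 4 + 1 = j := by decide
  have i11 : ∀ j : Fin 5, j + 1 + 1 = j + 2 := by decide
  have i42 : ∀ j : Fin 5, j + 4 + 2 = j + 1 := by decide
  have i22 : ∀ j : Fin 5, j + 2 + 2 = j + 4 := by decide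
  have i12 : ∀ j : Fin 5, j + 1 + 2 = j + 2 + 1 := by decide
  have i14 : ∀ j : Fin 5, j + 1 + 4 = j := by decide
  refine cyclic_contra (fun j => y j - x (j + 4)) (fun j => u j * v (j + 1) - v j * u (j + 1))
    (fun j => u j * v (j + 2) - v j * u (j + 2)) hP hR ?_ ?_
  · intro j
    have := step_one (u (j + 4)) (v (j + 4)) (u j) (v j) (u (j + 1)) (v (j + 1))
      (u (j + 2)) (v (j + 2)) (a (j + 4)) (b (j + 4)) (a j) (b j) (a (j + 1)) (b (j + 1))
      (a (j + 2)) (b (j + 2)) (m (j + 4)) (n (j + 4)) (y (j + 4)) (x (j + 4)) (y j) (x j)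
      (y (j + 1)) (x (j + 1))
      (by have := hP (j + 1); rwa [i11] at this)
      (by have := hR (j + 4); rwa [i42] at this)
      (by have := hR (j + 2); rwa [i22] at this)
      (by have := hya (j + 4); rwa [i41] at this)
      (by have := hyb (j + 4); rwa [i41] at this)
      (hya j) (hyb j)
      (by have := hya (j + 1); rwa [i11] at this)
      (by have := hyb (j + 1); rwa [i11] at this)
      (hm _ _) (hm _ _) (hI j)
    simp only [i41, i42, i14]
    exact this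
  · intro j
    have := step_two (u (j + 4)) (v (j + 4)) (u j) (v j) (u (j + 1)) (v (j + 1))
      (u (j + 2)) (v (j + 2)) (a (j + 4)) (b (j + 4)) (a j) (b j) (a (j + 1)) (b (j + 1))
      (a (j + 2)) (b (j + 2)) (m (j + 2)) (n (j + 2)) (y (j + 4)) (x (j + 4)) (y j) (x j)
      (y (j + 1)) (x (j + 1))
      (by have := hP (j + 4); rwa [i41] at this)
      (hR j)
      (by have := hR (j + 2); rwa [i22] at this)
      (by have := hya (j + 4); rwa [i41] at this)
      (by have := hyb (j + 4); rwa [i41] at this)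
      (hya j) (hyb j)
      (by have := hya (j + 1); rwa [i11] at this)
      (by have := hyb (j + 1); rwa [i11] at this)
      (hm _ _) (hm _ _) (hII j)
    simp only [i11, i14]
    exact this

end Pool.Agent.Y372
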