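import Mathlib
import Pool.Agent.Y372.PentAlgebra
import Pool.Agent.Y372.Chain

set_option autoImplicit false

namespace Pool.Agent.Y372

open Real Set

/-- The Euclidean plane. -/
abbrev Plane : Type := EuclideanSpace ℝ (Fin 2)

/-- The homothetic copy `x + r K`. -/
def homothet (K : Set Plane) (x : Plane) (r : ℝ) : Set Plane :=
  {y : Plane | ∃ k ∈ K, y = x + r • k}

/-- The linear functional in direction `t`. -/
noncomputable def lin (t : ℝ) (x : Plane) : ℝ := cos t * x 0 + sin t * x 1

lemma lin_add (t : ℝ) (x y : Plane) : lin t (x + y) = lin t x + lin t y := by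
  simp [lin]; ring

lemma lin_sub (t : ℝ) (x y : Plane) : lin t (x - y) = lin t x - lin t y := by
  simp [lin]; ring

lemma lin_smul (t c : ℝ) (x : Plane) : lin t (c • x) = c * lin t x := by
  simp [lin]; ring

lemma lin_add_pi (t : ℝ) (x : Plane) : lin (t + π) x = - lin t x := by
  simp [lin, cos_add_pi, sin_add_pi]; ring

lemma lin_add_two_pi (t : ℝ) (x : Plane) : lin (t + 2 * π) x = lin t x := by
  simp [lin, cos_add_two_pi, sin_add_two_pi]

lemma lin_add_int (t : ℝ) (n : ℤ) (x : Plane) : lin (t + n * (2 * π)) x = lin t x := by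
  simp [lin, cos_add_int_mul_two_pi, sin_add_int_mul_two_pi]

lemma lin_three (a b c : ℝ) (v : Plane) :
    sin (b - a) * lin c v = sin (b - c) * lin a v + sin (c - a) * lin b v := by
  simp only [lin, sin_sub]; ring

lemma continuous_lin : Continuous (fun q : ℝ × Plane => lin q.1 q.2) := by
  unfold lin
  fun_prop

/-- A compact convex set with interior on which each direction has a unique maximizer. -/
structure Body (K : Set Plane) : Prop where
  compact : IsCompact K
  conv : Convex ℝ K
  inter : (interior K).Nonempty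
  uniq : ∀ t x y, x ∈ K → y ∈ K → (∀ z ∈ K, lin t z ≤ lin t x) → (∀ z ∈ K, lin t z ≤ lin t y) →
    x = y

variable {K : Set Plane}

lemma continuous_lin_right (t : ℝ) : Continuous (fun x : Plane => lin t x) := by
  unfold lin
  fun_prop

lemma Body.ne (hK : Body K) : K.Nonempty := hK.inter.mono interior_subset

lemma Body.exists_max (hK : Body K) (t : ℝ) : ∃ p ∈ K, ∀ z ∈ K, lin t z ≤ lin t p := by
  obtain ⟨p, hp, hmax⟩ := hK.compact.exists_isMaxOn hK.ne (continuous_lin_right t).continuousOn
  exact ⟨p, hp, fun z hz => hmax hz⟩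

/-- The support point in direction `t`. -/
noncomputable def Body.sup (hK : Body K) (t : ℝ) : Plane := (hK.exists_max t).choose

lemma Body.sup_mem (hK : Body K) (t : ℝ) : hK.sup t ∈ K := (hK.exists_max t).choose_spec.1

lemma Body.le_sup (hK : Body K) (t : ℝ) {z : Plane} (hz : z ∈ K) : lin t z ≤ lin t (hK.sup t) :=
  (hK.exists_max t).choose_spec.2 z hz

lemma Body.eq_sup (hK : Body K) (t : ℝ) {p : Plane} (hp : p ∈ K)
    (hmax : ∀ z ∈ K, lin t z ≤ lin t p) : p = hK.sup t :=
  hK.uniq t p _ hp (hK.sup_mem t) hmax fun _ hz => hK.le_sup t hz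

lemma Body.sup_period (hK : Body K) (t : ℝ) : hK.sup (t + 2 * π) = hK.sup t := by
  apply hK.eq_sup t (hK.sup_mem _)
  intro z hz
  have := hK.le_sup (t + 2 * π) hz
  rwa [lin_add_two_pi, lin_add_two_pi] at this

/-- Antipodal support point gives the minimum. -/
lemma Body.ge_anti (hK : Body K) (t : ℝ) {z : Plane} (hz : z ∈ K) :
    lin t (hK.sup (t + π)) ≤ lin t z := by
  have := hK.le_sup (t + π) hz
  rw [lin_add_pi, lin_add_pi] at this
  linarith

/-- The width in direction `t`. -/
noncomputable def Body.wid (hK : Body K) (t : ℝ) : ℝ := lin t (hK.sup t) - lin t (hK.sup (t + π))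

lemma lt_of_mem_interior {z : Plane} (hz : z ∈ interior K) {t c : ℝ}
    (hc : ∀ y ∈ K, lin t y ≤ c) : lin t z < c := by
  obtain ⟨ε, hε, hball⟩ := Metric.isOpen_iff.mp isOpen_interior z hz
  -- the unit vector
  let e : Plane := !₂[cos t, sin t]
  have he0 : e 0 = cos t := rfl
  have he1 : e 1 = sin t := rfl
  have hle : lin t e = 1 := by
    rw [lin, he0, he1]
    nlinarith [sin_sq_add_cos_sq t]
  have hne : ‖e‖ = 1 := by
    rw [EuclideanSpace.norm_eq, Fin.sum_univ_two, he0, he1, Real.norm_eq_abs, Real.norm_eq_abs,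
      sq_abs, sq_abs, cos_sq_add_sin_sq, Real.sqrt_one]
  have hmem : z + (ε / 2) • e ∈ Metric.ball z ε := by
    rw [Metric.mem_ball, dist_eq_norm, add_sub_cancel_left, norm_smul, hne, mul_one,
      Real.norm_eq_abs, abs_of_pos (by linarith)]
    linarith
  have h1 := hc _ (interior_subset (hball hmem))
  rw [lin_add, lin_smul, hle] at h1
  linarith

lemma Body.wid_pos (hK : Body K) (t : ℝ) : 0 < hK.wid t := by
  obtain ⟨z, hz⟩ := hK.inter
  have h1 := lt_of_mem_interior hz (t := t) (c := lin t (hK.sup t)) fun y hy => hK.le_sup t hy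
  have h2 := lt_of_mem_interior hz (t := t + π) (c := lin (t + π) (hK.sup (t + π)))
    fun y hy => hK.le_sup (t + π) hy
  rw [lin_add_pi, lin_add_pi] at h2
  unfold Body.wid
  linarith

/-- Extent of a homothet. -/
lemma Body.homothet_extent (hK : Body K) {x : Plane} {r : ℝ} (hr : 0 ≤ r) {u v : Plane}
    (hu : u ∈ homothet K x r) (hv : v ∈ homothet K x r) (t : ℝ) :
    lin t u - lin t v ≤ r * hK.wid t := by
  obtain ⟨k, hk, rfl⟩ := hu
  obtain ⟨l, hl, rfl⟩ := hv
  rw [lin_add, lin_add, lin_smul, lin_smul]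
  have h1 := hK.le_sup t hk
  have h2 := hK.ge_anti t hl
  unfold Body.wid
  have h3 : r * (lin t k - lin t l) ≤ r * (lin t (hK.sup t) - lin t (hK.sup (t + π))) :=
    mul_le_mul_of_nonneg_left (by linarith) hr
  linarith

lemma Body.homothet_half (hK : Body K) {x : Plane} {r : ℝ} (hr : 0 ≤ r) (hr2 : r < 1 / 2)
    {u v : Plane} (hu : u ∈ homothet K x r) (hv : v ∈ homothet K x r) (t : ℝ) :
    2 * (lin t u - lin t v) < hK.wid t := by
  have h1 := hK.homothet_extent hr hu hv t
  have h2 := hK.wid_pos t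
  nlinarith

lemma exists_polar (c0 c1 : ℝ) : ∃ ρ t : ℝ, 0 ≤ ρ ∧ c0 = ρ * cos t ∧ c1 = ρ * sin t := by
  refine ⟨‖(⟨c0, c1⟩ : ℂ)‖, Complex.arg ⟨c0, c1⟩, norm_nonneg _, ?_, ?_⟩
  · rw [Complex.norm_mul_cos_arg]
  · rw [Complex.norm_mul_sin_arg]

/-- Separation by a direction in a given window. -/
lemma exists_direction (hK : Convex ℝ K) (hcl : IsClosed K) (hne : K.Nonempty) {y : Plane}
    (hy : y ∉ K) (α : ℝ) : ∃ t, α ≤ t ∧ t < α + 2 * π ∧ ∀ k ∈ K, lin t k < lin t y := by
  obtain ⟨f, u, hf1, hf2⟩ := geometric_hahn_banach_closed_point hK hcl hy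
  obtain ⟨ρ, t, hρ, hc0, hc1⟩ := exists_polar (f (EuclideanSpace.single 0 1))
    (f (EuclideanSpace.single 1 1))
  have hfv : ∀ v : Plane, f v = ρ * lin t v := by
    intro v
    have hv : v = v 0 • EuclideanSpace.single (0 : Fin 2) (1 : ℝ) +
        v 1 • EuclideanSpace.single (1 : Fin 2) (1 : ℝ) := by
      ext i
      fin_cases i <;> simp
    conv_lhs => rw [hv]
    rw [map_add, map_smul, map_smul, hc0, hc1, lin, smul_eq_mul, smul_eq_mul]
    ring
  obtain ⟨k0, hk0⟩ := hne
  have hρ' : 0 < ρ := by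
    rcases eq_or_lt_of_le hρ with h | h
    · exfalso
      have h1 := hf1 k0 hk0
      rw [hfv] at h1 hf2
      rw [← h] at h1 hf2
      linarith
    · exact h
  obtain ⟨n, hn, -⟩ := existsUnique_add_zsmul_mem_Ico two_pi_pos t α
  refine ⟨t + n • (2 * π), hn.1, hn.2, ?_⟩
  intro k hk
  rw [zsmul_eq_mul, lin_add_int, lin_add_int]
  have h1 := hf1 k hk
  rw [hfv] at h1 hf2
  exact lt_of_mul_lt_mul_left (h1.trans hf2) hρ

/-- The cap lemma: a homothet smaller than the body meets the set of support points in an arc. -/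
lemma Body.cap (hK : Body K) {x : Plane} {r : ℝ} (hr : 0 < r) (hr1 : r < 1) {α β t : ℝ}
    (hα : hK.sup α ∈ homothet K x r) (hβ : hK.sup β ∈ homothet K x r) (h1 : α ≤ t) (h2 : t ≤ β)
    (h3 : β < α + π) : hK.sup t ∈ homothet K x r := by
  rcases eq_or_lt_of_le h1 with e1 | l1
  · rw [← e1]; exact hα
  rcases eq_or_lt_of_le h2 with e2 | l2
  · rw [e2]; exact hβ
  set q := hK.sup t with hq
  set y : Plane := r⁻¹ • (q - x) with hy
  have hqy : q = x + r • y := by
    rw [hy, smul_smul, mul_inv_cancel₀ hr.ne', one_smul]; abel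
  suffices hyK : y ∈ K from ⟨y, hyK, hqy⟩
  by_contra hyK
  obtain ⟨φ, hφ1, hφ2, hφ⟩ := exists_direction hK.conv hK.compact.isClosed hK.ne hyK α
  have H : ∀ k ∈ K, lin φ x + r * lin φ k < lin φ q := by
    intro k hk
    have := hφ k hk
    rw [hqy, lin_add, lin_smul]
    have := mul_lt_mul_of_pos_left this hr
    linarith
  have hqK : q ∈ K := hK.sup_mem t
  rcases le_or_gt φ β with c1 | c1
  · -- direction between `α` and `β`
    have s0 : 0 < sin (β - α) := sin_pos_of_pos_of_lt_pi (by linarith) (by linarith)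
    have s1 : 0 ≤ sin (β - φ) := sin_nonneg_of_nonneg_of_le_pi (by linarith) (by linarith)
    have s2 : 0 ≤ sin (φ - α) := sin_nonneg_of_nonneg_of_le_pi (by linarith) (by linarith)
    have xα : (1 - r) * lin α q ≤ lin α x := by
      obtain ⟨k, hk, hkk⟩ := hα
      have g1 : lin α (hK.sup α) = lin α x + r * lin α k := by rw [← lin_smul, ← lin_add, ← hkk]
      have g2 := mul_le_mul_of_nonneg_left (hK.le_sup α hk) hr.le
      have g3 := mul_le_mul_of_nonneg_left (hK.le_sup α hqK) (by linarith : (0:ℝ) ≤ 1 - r)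
      linarith
    have xβ : (1 - r) * lin β q ≤ lin β x := by
      obtain ⟨k, hk, hkk⟩ := hβ
      have g1 : lin β (hK.sup β) = lin β x + r * lin β k := by rw [← lin_smul, ← lin_add, ← hkk]
      have g2 := mul_le_mul_of_nonneg_left (hK.le_sup β hk) hr.le
      have g3 := mul_le_mul_of_nonneg_left (hK.le_sup β hqK) (by linarith : (0:ℝ) ≤ 1 - r)
      linarith
    have t1 := lin_three α β φ x
    have t2 := lin_three α β φ q
    have g0 := H q hqK
    have g1 : sin (β - α) * lin φ x < sin (β - α) * ((1 - r) * lin φ q) :=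
      mul_lt_mul_of_pos_left (by linarith) s0
    have g2 := mul_le_mul_of_nonneg_left xα s1
    have g3 := mul_le_mul_of_nonneg_left xβ s2
    have g4 : sin (β - α) * ((1 - r) * lin φ q) =
        sin (β - φ) * ((1 - r) * lin α q) + sin (φ - α) * ((1 - r) * lin β q) := by
      linear_combination (1 - r) * t2
    linarith
  · rcases le_or_gt φ (t + π) with c2 | c2
    · have s0 : 0 < sin (β - t) := sin_pos_of_pos_of_lt_pi (by linarith) (by linarith)
      have s1 : sin (β - φ) ≤ 0 := by
        have : 0 ≤ sin (φ - β) := sin_nonneg_of_nonneg_of_le_pi (by linarith) (by linarith)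
        rw [← neg_sub, sin_neg]; linarith
      have s2 : 0 ≤ sin (φ - t) := sin_nonneg_of_nonneg_of_le_pi (by linarith) (by linarith)
      have t1 := lin_three t β φ (q - hK.sup β)
      rw [lin_sub, lin_sub, lin_sub] at t1
      have g1 : 0 ≤ lin t q - lin t (hK.sup β) := by
        have := hK.le_sup t (hK.sup_mem β); linarith
      have g2 : lin β q - lin β (hK.sup β) ≤ 0 := by
        have := hK.le_sup β hqK; linarith
      obtain ⟨k, hk, hkk⟩ := hβ
      have g3 := H k hk
      rw [← lin_smul, ← lin_add, ← hkk] at g3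
      have g4 : 0 < sin (β - t) * (lin φ q - lin φ (hK.sup β)) := mul_pos s0 (by linarith)
      have g5 := mul_nonneg_of_nonpos_of_nonpos (b := lin β q - lin β (hK.sup β))
        (neg_nonpos.mpr s2) g2
      have g6 := mul_nonneg (neg_nonneg.mpr s1) g1
      linarith
    · have s0 : 0 < sin (t - α) := sin_pos_of_pos_of_lt_pi (by linarith) (by linarith)
      have s1 : 0 ≤ sin (t - φ) := by
        have : 0 ≤ sin (t - φ + 2 * π) :=
          sin_nonneg_of_nonneg_of_le_pi (by linarith) (by linarith)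
        rwa [sin_add_two_pi] at this
      have s2 : sin (φ - α) ≤ 0 := by
        have : 0 ≤ sin (φ - α - π) :=
          sin_nonneg_of_nonneg_of_le_pi (by linarith) (by linarith)
        rw [sin_sub_pi] at this
        linarith
      have t1 := lin_three α t φ (q - hK.sup α)
      rw [lin_sub, lin_sub, lin_sub] at t1
      have g1 : 0 ≤ lin t q - lin t (hK.sup α) := by
        have := hK.le_sup t (hK.sup_mem α); linarith
      have g2 : lin α q - lin α (hK.sup α) ≤ 0 := by
        have := hK.le_sup α hqK; linarith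
      obtain ⟨k, hk, hkk⟩ := hα
      have g3 := H k hk
      rw [← lin_smul, ← lin_add, ← hkk] at g3
      have g4 : 0 < sin (t - α) * (lin φ q - lin φ (hK.sup α)) := mul_pos s0 (by linarith)
      have g5 := mul_nonneg s1 (neg_nonneg.mpr g2)
      have g6 := mul_nonneg (neg_nonneg.mpr s2) g1
      linarith

lemma isClosed_homothet (hK : IsCompact K) (x : Plane) (r : ℝ) : IsClosed (homothet K x r) := by
  have : homothet K x r = (fun k => x + r • k) '' K := by
    ext y
    constructor
    · rintro ⟨k, hk, rfl⟩; exact ⟨k, hk, rfl⟩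
    · rintro ⟨k, hk, rfl⟩; exact ⟨k, hk, rfl⟩
  rw [this]
  exact (hK.image (by fun_prop)).isClosed

/-- The set of directions whose support point lies in a closed set is closed. -/
lemma Body.isClosed_arc (hK : Body K) {S : Set Plane} (hS : IsClosed S) :
    IsClosed {t : ℝ | hK.sup t ∈ S} := by
  have : CompactSpace K := isCompact_iff_compactSpace.mp hK.compact
  have hmap : IsClosedMap (Prod.snd : K × ℝ → ℝ) := isClosedMap_snd_of_compactSpace
  have hC : IsClosed {q : K × ℝ | (q.1 : Plane) ∈ S ∧ ∀ z ∈ K, lin q.2 z ≤ lin q.2 q.1} := by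
    have e : {q : K × ℝ | (q.1 : Plane) ∈ S ∧ ∀ z ∈ K, lin q.2 z ≤ lin q.2 q.1} =
        (fun q : K × ℝ => (q.1 : Plane)) ⁻¹' S ∩
        ⋂ z ∈ K, {q : K × ℝ | lin q.2 z ≤ lin q.2 q.1} := by
      ext q
      simp
    rw [e]
    refine IsClosed.inter (hS.preimage (by fun_prop)) ?_
    refine isClosed_biInter fun z _ => isClosed_le ?_ ?_
    · exact continuous_lin.comp (by fun_prop : Continuous fun q : K × ℝ => (q.2, z))
    · exact continuous_lin.comp (by fun_prop : Continuous fun q : K × ℝ => (q.2, (q.1 : Plane)))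
  have himg := hmap _ hC
  convert himg using 1
  ext t
  simp only [mem_ofPred_eq, mem_image, Prod.exists, exists_eq_right]
  constructor
  · intro ht
    exact ⟨⟨hK.sup t, hK.sup_mem t⟩, ht, fun z hz => hK.le_sup t hz⟩
  · rintro ⟨⟨k, hk⟩, hkS, hkm⟩
    rw [← hK.eq_sup t hk hkm]
    exact hkS

/-- The arcs of directions of a covering by five small homothets. -/
lemma Body.arcSystem (hK : Body K) (x : Fin 5 → Plane) (r : Fin 5 → ℝ)
    (hr : ∀ i, 0 < r i ∧ r i < 1 / 2)
    (hcov : ∀ t, ∃ i, hK.sup t ∈ homothet K (x i) (r i)) :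
    ArcSystem (fun i => {t : ℝ | hK.sup t ∈ homothet K (x i) (r i)}) where
  closed i := hK.isClosed_arc (isClosed_homothet hK.compact _ _)
  cover t := hcov t
  period i t ht := by
    change hK.sup (t + 2 * π) ∈ homothet K (x i) (r i)
    rw [hK.sup_period]
    exact ht
  anti i k t s h1 h2 h3 h4 := by
    have g1 := hK.homothet_half (hr i).1.le (hr i).2 h1 h3 t
    have g2 := hK.homothet_half (hr k).1.le (hr k).2 h4 h2 t
    have : hK.wid t = lin t (hK.sup t) - lin t (hK.sup (t + π)) := rfl
    linarith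
  cap i s t r' h1 h2 h3 h4 h5 := hK.cap (hr i).1 (by linarith [(hr i).2]) h1 h2 h3 h4 h5

/-- The main theorem for bodies with unique maximizers. -/
theorem Body.no_cover (hK : Body K) (x : Fin 5 → Plane) (r : Fin 5 → ℝ)
    (hr : ∀ i, 0 < r i ∧ r i < 1 / 2)
    (hcov : ∀ t, ∃ i, hK.sup t ∈ homothet K (x i) (r i)) : False := by
  have hA := hK.arcSystem x r hr hcov
  obtain ⟨θ, L, h5, hmono, hstep, hL1, hL2⟩ := hA.chain
  -- double steps
  have d0 : θ 2 < θ 0 + π := hA.double (hL1 0) (hL2 0) (hL1 1) (hL2 1) (hstep 0) (hstep 1)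
  have d1 : θ 3 < θ 1 + π := hA.double (hL1 1) (hL2 1) (hL1 2) (hL2 2) (hstep 1) (hstep 2)
  have d2 : θ 4 < θ 2 + π := hA.double (hL1 2) (hL2 2) (hL1 3) (hL2 3) (hstep 2) (hstep 3)
  have d3 : θ 5 < θ 3 + π := hA.double (hL1 3) (hL2 3) (hL1 4) (hL2 4) (hstep 3) (hstep 4)
  have d4 : θ 1 + 2 * π < θ 4 + π := by
    refine hA.double (hL1 4) (hL2 4) (k := L 0) ?_ (hA.period _ _ (hL2 0)) (hstep 4) ?_
    · rw [h5]; exact hA.period _ _ (hL1 0)
    · have := hstep 0; rw [h5]; linarith
  have m0 := hmono 0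
  have m1 := hmono 1
  have m2 := hmono 2
  have m3 := hmono 3
  have m4 := hmono 4
  norm_num at m0 m1 m2 m3 m4
  have st0 := hstep 0
  have st1 := hstep 1
  have st2 := hstep 2
  have st3 := hstep 3
  have st4 := hstep 4
  norm_num at st0 st1 st2 st3 st4
  -- the data of the five support lines
  let T : Fin 5 → ℝ := fun j => θ j
  have hhalf : ∀ (j : Fin 5) (t : ℝ), 2 * |lin t (hK.sup (T j)) - lin t (hK.sup (T (j + 1)))| <
      hK.wid t := by
    have gen : ∀ (i : Fin 5) (u v : Plane), u ∈ homothet K (x i) (r i) →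
        v ∈ homothet K (x i) (r i) → ∀ t, 2 * |lin t u - lin t v| < hK.wid t := by
      intro i u v hu hv t
      have g1 := hK.homothet_half (hr i).1.le (hr i).2 hu hv t
      have g2 := hK.homothet_half (hr i).1.le (hr i).2 hv hu t
      rcases abs_cases (lin t u - lin t v) with ⟨h, -⟩ | ⟨h, -⟩ <;> rw [h] <;> linarith
    intro j t
    fin_cases j
    · exact gen (L 0) _ _ (hL1 0) (hL2 0) t
    · exact gen (L 1) _ _ (hL1 1) (hL2 1) t
    · exact gen (L 2) _ _ (hL1 2) (hL2 2) t
    · exact gen (L 3) _ _ (hL1 3) (hL2 3) t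
    · refine gen (L 4) _ _ (hL1 4) ?_ t
      have := hL2 4
      change hK.sup (θ 5) ∈ homothet K (x (L 4)) (r (L 4)) at this
      rw [h5, hK.sup_period] at this
      exact this
  refine pentagon_contra (fun j => - sin (T j)) (fun j => cos (T j))
    (fun j => (hK.sup (T j)) 0) (fun j => (hK.sup (T j)) 1)
    (fun j => (hK.sup (T j + π)) 0) (fun j => (hK.sup (T j + π)) 1) ?_ ?_ ?_ ?_ ?_
  · intro j
    have e : ∀ a b : ℝ, - sin a * cos b - cos a * - sin b = sin (b - a) := by
      intro a b; rw [sin_sub]; ring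
    rw [e]
    fin_cases j
    · change 0 < sin (θ 1 - θ 0)
      exact sin_pos_of_pos_of_lt_pi (by linarith) (by linarith)
    · change 0 < sin (θ 2 - θ 1)
      exact sin_pos_of_pos_of_lt_pi (by linarith) (by linarith)
    · change 0 < sin (θ 3 - θ 2)
      exact sin_pos_of_pos_of_lt_pi (by linarith) (by linarith)
    · change 0 < sin (θ 4 - θ 3)
      exact sin_pos_of_pos_of_lt_pi (by linarith) (by linarith)
    · change 0 < sin (θ 0 - θ 4)
      rw [← sin_add_two_pi]
      exact sin_pos_of_pos_of_lt_pi (by linarith) (by linarith)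
  · intro j
    have e : ∀ a b : ℝ, - sin a * cos b - cos a * - sin b = sin (b - a) := by
      intro a b; rw [sin_sub]; ring
    rw [e]
    fin_cases j
    · change 0 < sin (θ 2 - θ 0)
      exact sin_pos_of_pos_of_lt_pi (by linarith) (by linarith)
    · change 0 < sin (θ 3 - θ 1)
      exact sin_pos_of_pos_of_lt_pi (by linarith) (by linarith)
    · change 0 < sin (θ 4 - θ 2)
      exact sin_pos_of_pos_of_lt_pi (by linarith) (by linarith)
    · change 0 < sin (θ 0 - θ 3)
      rw [← sin_add_two_pi]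
      exact sin_pos_of_pos_of_lt_pi (by linarith) (by linarith)
    · change 0 < sin (θ 1 - θ 4)
      rw [← sin_add_two_pi]
      exact sin_pos_of_pos_of_lt_pi (by linarith) (by linarith)
  · intro j k
    have := hK.le_sup (T k) (hK.sup_mem (T j + π))
    unfold lin at this
    linarith
  · intro j
    have h1 := hhalf j (T (j + 4))
    have h2 := le_abs_self (lin (T (j + 4)) (hK.sup (T j)) -
      lin (T (j + 4)) (hK.sup (T (j + 1))))
    unfold Body.wid at h1
    unfold lin at h1 h2
    linarith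
  · intro j
    have h1 := hhalf j (T (j + 2))
    have h2 := neg_abs_le (lin (T (j + 2)) (hK.sup (T j)) -
      lin (T (j + 2)) (hK.sup (T (j + 1))))
    unfold Body.wid at h1
    unfold lin at h1 h2
    linarith

end Pool.Agent.Y372
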