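import Mathlib
import Pool.Agent.Y372.Cap

set_option autoImplicit false

namespace Pool.Agent.Y372

open Real Set Topology

variable {K : Set Plane}

/-- A strictly convex body inside `K`. -/
def rounded (K : Set Plane) (ε : ℝ) : Set Plane := {x | gauge K x + ε * ‖x‖ ≤ 1}

lemma rounded_body (hc : Convex ℝ K) (h0 : (0 : Plane) ∈ interior K) {ε : ℝ} (hε : 0 < ε) :
    Body (rounded K ε) := by
  have hnhds : K ∈ 𝓝 (0 : Plane) := mem_interior_iff_mem_nhds.mp h0
  have habs : Absorbent ℝ K := absorbent_nhds_zero hnhds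
  have hcont : Continuous (fun x : Plane => gauge K x + ε * ‖x‖) :=
    (continuous_gauge hc hnhds).add (by fun_prop)
  have fnn : ∀ x : Plane, 0 ≤ gauge K x + ε * ‖x‖ := fun x =>
    add_nonneg (gauge_nonneg x) (mul_nonneg hε.le (norm_nonneg _))
  have fpos : ∀ x : Plane, x ≠ 0 → 0 < gauge K x + ε * ‖x‖ := fun x hx =>
    add_pos_of_nonneg_of_pos (gauge_nonneg x) (mul_pos hε (norm_pos_iff.mpr hx))
  have fsmul : ∀ (c : ℝ) (x : Plane), 0 ≤ c →
      gauge K (c • x) + ε * ‖c • x‖ = c * (gauge K x + ε * ‖x‖) := by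
    intro c x hc0
    rw [gauge_smul_of_nonneg hc0, norm_smul, Real.norm_eq_abs, abs_of_nonneg hc0, smul_eq_mul]
    ring
  have hconv : Convex ℝ (rounded K ε) := by
    intro x hx y hy a b ha hb hab
    change gauge K (a • x + b • y) + ε * ‖a • x + b • y‖ ≤ 1
    have h1 := gauge_add_le hc habs (a • x) (b • y)
    have h2 := mul_le_mul_of_nonneg_left (norm_add_le (a • x) (b • y)) hε.le
    have h3 := fsmul a x ha
    have h4 := fsmul b y hb
    have h5 := mul_le_mul_of_nonneg_left (show gauge K x + ε * ‖x‖ ≤ 1 from hx) ha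
    have h6 := mul_le_mul_of_nonneg_left (show gauge K y + ε * ‖y‖ ≤ 1 from hy) hb
    linarith
  have hint : (0 : Plane) ∈ interior (rounded K ε) := by
    rw [mem_interior]
    refine ⟨{x | gauge K x + ε * ‖x‖ < 1}, ?_, isOpen_lt hcont continuous_const, ?_⟩
    · intro x hx
      have hx' : gauge K x + ε * ‖x‖ < 1 := hx
      exact (le_of_lt hx' : gauge K x + ε * ‖x‖ ≤ 1)
    change gauge K 0 + ε * ‖(0 : Plane)‖ < 1
    simp
  refine ⟨?_, hconv, ⟨0, hint⟩, ?_⟩
  · apply Metric.isCompact_of_isClosed_isBounded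
    · exact isClosed_le hcont continuous_const
    · rw [isBounded_iff_forall_norm_le]
      refine ⟨1 / ε, fun x hx => ?_⟩
      rw [le_div_iff₀ hε]
      have h1 : gauge K x + ε * ‖x‖ ≤ 1 := hx
      have h2 := gauge_nonneg (s := K) x
      linarith
  · intro t x y hx hy hmx hmy
    have hxy : lin t x = lin t y := le_antisymm (hmy x hx) (hmx y hy)
    have hpos : 0 < lin t x := by
      have := lt_of_mem_interior hint (t := t) (c := lin t x) hmx
      have h0 : lin t (0 : Plane) = 0 := by simp [lin]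
      rwa [h0] at this
    have hx0 : x ≠ 0 := by
      rintro rfl
      have h0 : lin t (0 : Plane) = 0 := by simp [lin]
      rw [h0] at hpos
      exact lt_irrefl _ hpos
    -- homogeneous bound
    have hom : ∀ z : Plane, lin t z ≤ (gauge K z + ε * ‖z‖) * lin t x := by
      intro z
      rcases eq_or_ne z 0 with rfl | hz
      · have h0 : lin t (0 : Plane) = 0 := by simp [lin]
        rw [h0]
        exact mul_nonneg (fnn 0) hpos.le
      · have hf := fpos z hz
        have hmem : (gauge K z + ε * ‖z‖)⁻¹ • z ∈ rounded K ε := by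
          change gauge K ((gauge K z + ε * ‖z‖)⁻¹ • z) + ε * ‖(gauge K z + ε * ‖z‖)⁻¹ • z‖ ≤ 1
          rw [fsmul _ _ (inv_nonneg.mpr hf.le), inv_mul_cancel₀ hf.ne']
        have := hmx _ hmem
        rw [lin_smul] at this
        rwa [inv_mul_le_iff₀ hf] at this
    have hmid := hom (x + y)
    rw [lin_add, ← hxy] at hmid
    have h2 : (2 : ℝ) ≤ gauge K (x + y) + ε * ‖x + y‖ := by
      by_contra hcon
      push Not at hcon
      have := mul_lt_mul_of_pos_right hcon hpos
      linarith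
    have h3 := gauge_add_le hc habs x y
    have h4 : gauge K x + ε * ‖x‖ ≤ 1 := hx
    have h5 : gauge K y + ε * ‖y‖ ≤ 1 := hy
    have h6 : ‖x‖ + ‖y‖ ≤ ‖x + y‖ := by
      have : ε * (‖x‖ + ‖y‖) ≤ ε * ‖x + y‖ := by linarith
      exact le_of_mul_le_mul_left this hε
    have h7 : SameRay ℝ x y := by
      rw [sameRay_iff_norm_add]
      exact le_antisymm (norm_add_le _ _) h6
    obtain ⟨c, hc0, hcy⟩ := h7.exists_nonneg_left hx0
    have h8 : lin t y = c * lin t x := by rw [← hcy, lin_smul]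
    have h9 : c = 1 := by
      have : c * lin t x = 1 * lin t x := by rw [← h8, ← hxy, one_mul]
      exact mul_right_cancel₀ hpos.ne' this
    rw [← hcy, h9, one_smul]

lemma rounded_subset (hK : IsClosed K) (hc : Convex ℝ K) (h0 : (0 : Plane) ∈ interior K) {ε : ℝ}
    (hε : 0 < ε) : rounded K ε ⊆ K := by
  intro x hx
  have hnhds : K ∈ 𝓝 (0 : Plane) := mem_interior_iff_mem_nhds.mp h0
  have h1 : gauge K x ≤ 1 := by
    have h2 : gauge K x + ε * ‖x‖ ≤ 1 := hx
    have h3 := mul_nonneg hε.le (norm_nonneg x)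
    linarith
  have := (gauge_le_one_iff_mem_closure hc hnhds).mp h1
  rwa [hK.closure_eq] at this

lemma subset_rounded {ε R : ℝ} (hε : 0 < ε) (hR : 0 ≤ R)
    (hKR : ∀ x ∈ K, ‖x‖ ≤ R) {x : Plane} (hx : x ∈ K) :
    ∃ y ∈ rounded K ε, x = (1 + ε * R) • y := by
  have hpos : 0 < 1 + ε * R := by have := mul_nonneg hε.le hR; linarith
  refine ⟨(1 + ε * R)⁻¹ • x, ?_, ?_⟩
  · change gauge K ((1 + ε * R)⁻¹ • x) + ε * ‖(1 + ε * R)⁻¹ • x‖ ≤ 1
    have hi : 0 ≤ (1 + ε * R)⁻¹ := inv_nonneg.mpr hpos.le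
    rw [gauge_smul_of_nonneg hi, norm_smul, Real.norm_eq_abs, abs_of_nonneg hi, smul_eq_mul]
    have h1 : gauge K x ≤ 1 := gauge_le_one_of_mem hx
    have h2 := mul_le_mul_of_nonneg_left (hKR x hx) hε.le
    have h3 : (1 + ε * R)⁻¹ * gauge K x + ε * ((1 + ε * R)⁻¹ * ‖x‖) =
        (1 + ε * R)⁻¹ * (gauge K x + ε * ‖x‖) := by ring
    rw [h3]
    calc (1 + ε * R)⁻¹ * (gauge K x + ε * ‖x‖) ≤ (1 + ε * R)⁻¹ * (1 + ε * R) :=
          mul_le_mul_of_nonneg_left (by linarith) hi
      _ = 1 := inv_mul_cancel₀ hpos.ne'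
  · rw [smul_smul, mul_inv_cancel₀ hpos.ne', one_smul]

/-- The case of a convex body containing the origin in its interior. -/
theorem no_five_zero (hK : IsCompact K) (hc : Convex ℝ K) (h0 : (0 : Plane) ∈ interior K)
    (x : Fin 5 → Plane) (r : Fin 5 → ℝ) (hr : ∀ i, 0 < r i ∧ r i < 1 / 2)
    (hcov : ∀ k ∈ K, ∃ i, k ∈ homothet K (x i) (r i)) : False := by
  obtain ⟨i0, hi0⟩ := Finite.exists_min (fun i => 1 / 2 - r i)
  obtain ⟨R0, hR0⟩ := hK.isBounded.exists_norm_le
  set R := max R0 1 with hRdef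
  have hR1 : 1 ≤ R := le_max_right _ _
  have hKR : ∀ z ∈ K, ‖z‖ ≤ R := fun z hz => (hR0 z hz).trans (le_max_left _ _)
  set δ := 1 / 2 - r i0 with hδ
  have hδ0 : 0 < δ := by have := (hr i0).2; linarith
  set ε := δ / R with hεdef
  have hε : 0 < ε := div_pos hδ0 (by linarith)
  have hεR : ε * R = δ := div_mul_cancel₀ _ (by linarith)
  have hB := rounded_body hc h0 hε
  refine hB.no_cover x (fun i => r i * (1 + δ)) ?_ ?_
  · intro i
    have h1 := (hr i).1
    have h2 := (hr i).2
    have h3 : δ ≤ 1 / 2 - r i := hi0 i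
    refine ⟨mul_pos h1 (by linarith), ?_⟩
    nlinarith
  · intro t
    have hmem : hB.sup t ∈ K := rounded_subset hK.isClosed hc h0 hε (hB.sup_mem t)
    obtain ⟨i, k, hk, hki⟩ := hcov _ hmem
    obtain ⟨y, hy, hky⟩ := subset_rounded hε (by linarith) hKR hk
    refine ⟨i, y, hy, ?_⟩
    rw [hki, hky, hεR, smul_smul]

/-- No plane convex body is covered by five homothetic copies with ratios below one half. -/
theorem no_five (hK : IsCompact K) (hc : Convex ℝ K) (hi : (interior K).Nonempty)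
    (x : Fin 5 → Plane) (r : Fin 5 → ℝ) (hr : ∀ i, 0 < r i ∧ r i < 1 / 2)
    (hcov : ∀ k ∈ K, ∃ i, k ∈ homothet K (x i) (r i)) : False := by
  obtain ⟨c, hci⟩ := hi
  have hcont : Continuous (fun z : Plane => z + c) := by fun_prop
  have e : (fun z : Plane => z + c) ⁻¹' K = (fun z : Plane => z + (-c)) '' K := by
    ext z
    constructor
    · intro hz
      exact ⟨z + c, hz, by simp⟩
    · rintro ⟨w, hw, rfl⟩
      change w + -c + c ∈ K
      simpa using hw
  have hK0 : IsCompact ((fun z : Plane => z + c) ⁻¹' K) := by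
    rw [e]; exact hK.image (by fun_prop)
  have hc0 : Convex ℝ ((fun z : Plane => z + c) ⁻¹' K) := by
    intro a ha b hb s t hs ht hst
    change s • a + t • b + c ∈ K
    have := hc ha hb hs ht hst
    have h2 : s • a + t • b + c = s • (a + c) + t • (b + c) := by
      rw [smul_add, smul_add]
      have : c = s • c + t • c := by rw [← add_smul, hst, one_smul]
      nth_rewrite 1 [this]
      abel
    rw [h2]
    exact this
  have h00 : (0 : Plane) ∈ interior ((fun z : Plane => z + c) ⁻¹' K) := by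
    apply preimage_interior_subset_interior_preimage hcont
    change (0 : Plane) + c ∈ interior K
    rwa [zero_add]
  refine no_five_zero hK0 hc0 h00 (fun i => x i + r i • c - c) r hr ?_
  intro k hk
  obtain ⟨i, l, hl, hli⟩ := hcov (k + c) hk
  refine ⟨i, l - c, ?_, ?_⟩
  · change l - c + c ∈ K
    rwa [sub_add_cancel]
  · have : k = x i + r i • l - c := by rw [← hli]; abel
    rw [this, smul_sub]
    abel

end Pool.Agent.Y372
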